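import Pool.Agent.H413.G.R_seed8.H494R3.NK.Stmts

/-! Task Fred of project H494-NK (helper128). -/

set_option autoImplicit false

namespace Pool.Agent.helper128R3.NK

open Pool.Agent.H494R3.NK

universe u

theorem taskFred : TaskFred.{u} := by
  intro A _ r p k t c hr hp hrk hc hk hpk hkp ht
  obtain ⟨m, x, y, hxy⟩ := hk
  -- `k = ∑ (p x_i r) (y_i p)`
  have hk' : k = ∑ i, (p * x i * r) * (y i * p) := by
    calc k = p * k * p := by rw [hpk, hkp]
      _ = p * (∑ i, x i * r * y i) * p := by rw [← hxy]
      _ = ∑ i, (p * x i * r) * (y i * p) := by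
          rw [Finset.mul_sum, Finset.sum_mul]
          refine Finset.sum_congr rfl fun i _ => ?_
          simp only [mul_assoc]
  set U : Submodule ℂ A := Submodule.span ℂ (Set.range (fun i : Fin m => p * x i * r)) with hU
  have : FiniteDimensional ℂ U := FiniteDimensional.span_of_finite ℂ (Set.finite_range _)
  have hUr : ∀ w ∈ U, w * r = w := by
    intro w hw
    induction hw using Submodule.span_induction with
    | mem w hw =>
      obtain ⟨i, rfl⟩ := hw
      simp only [mul_assoc, hr]
    | zero => exact zero_mul _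
    | add a b _ _ ha hb => rw [add_mul, ha, hb]
    | smul a b _ hb => rw [smul_mul_assoc, hb]
  have hUp : ∀ w ∈ U, p * w = w := by
    intro w hw
    induction hw using Submodule.span_induction with
    | mem w hw =>
      obtain ⟨i, rfl⟩ := hw
      simp only [← mul_assoc, hp]
    | zero => exact mul_zero _
    | add a b _ _ ha hb => rw [mul_add, ha, hb]
    | smul a b _ hb => rw [mul_smul_comm, hb]
  have hkU : ∀ w ∈ U, k * w ∈ U := by
    intro w hw
    rw [hk', Finset.sum_mul]
    refine Submodule.sum_mem _ fun i _ => ?_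
    obtain ⟨d, hd⟩ := hrk (y i * p * w)
    have h1 : p * x i * r * (y i * p) * w = d • (p * x i * r) := by
      calc p * x i * r * (y i * p) * w = p * x i * r * (y i * p) * (w * r) := by rw [hUr w hw]
        _ = p * x i * (r * (y i * p * w) * r) := by simp only [mul_assoc]
        _ = d • (p * x i * r) := by rw [hd, mul_smul_comm]
    rw [h1]
    exact Submodule.smul_mem _ _ (Submodule.subset_span ⟨i, rfl⟩)
  set L : A →ₗ[ℂ] A := c • LinearMap.id + LinearMap.mulLeft ℂ k with hL
  have hLa : ∀ w, L w = c • w + k * w := fun w => by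
    simp [hL]
  have hLU : ∀ w ∈ U, L w ∈ U := fun w hw => by
    rw [hLa]
    exact Submodule.add_mem _ (Submodule.smul_mem _ _ hw) (hkU w hw)
  have hinj : Function.Injective (L.restrict hLU) := by
    rw [← LinearMap.ker_eq_bot, LinearMap.ker_eq_bot']
    intro w hw
    have h1 : L (w : A) = 0 := by
      have := congrArg Subtype.val hw
      simpa using this
    rw [hLa] at h1
    have h2 : (c • p + k) * (w : A) = 0 := by
      rw [add_mul, smul_mul_assoc, hUp _ w.2, h1]
    have h3 : p * (w : A) = 0 := by
      rw [← ht, mul_assoc, h2, mul_zero]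
    rw [hUp _ w.2] at h3
    exact Subtype.ext h3
  have hsurj := LinearMap.injective_iff_surjective.mp hinj
  have hex : ∀ i : Fin m, ∃ w : A, w ∈ U ∧ c • w + k * w = p * x i * r := by
    intro i
    obtain ⟨w, hw⟩ := hsurj ⟨p * x i * r, Submodule.subset_span ⟨i, rfl⟩⟩
    refine ⟨w, w.2, ?_⟩
    rw [← hLa]
    have := congrArg Subtype.val hw
    simpa using this
  choose w hwU hw using hex
  refine ⟨c⁻¹ • (p - ∑ i, w i * (y i * p)), ?_, ?_⟩
  · rw [mul_smul_comm, mul_sub, hp, Finset.mul_sum]
    congr 2
    refine Finset.sum_congr rfl fun i _ => ?_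
    rw [← mul_assoc, hUp _ (hwU i)]
  · rw [mul_smul_comm, mul_sub, Finset.mul_sum]
    have h1 : ∀ i, (c • p + k) * (w i * (y i * p)) = (p * x i * r) * (y i * p) := by
      intro i
      rw [← mul_assoc, add_mul, smul_mul_assoc, hUp _ (hwU i), hw]
    have h2 : (c • p + k) * p = c • p + k := by
      rw [add_mul, smul_mul_assoc, hp, hkp]
    rw [Finset.sum_congr rfl fun i _ => h1 i, ← hk', h2, add_sub_cancel_right, smul_smul,
      inv_mul_cancel₀ hc, one_smul]

end Pool.Agent.helper128R3.NK
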